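import Mathlib

namespace Pool.Agent.Results.MP_dac99f_nt.One

open Polynomial

/-- The shifted factorial `(a;b)_k`. -/
noncomputable def qpoch (a b : RatFunc ℚ) (k : ℕ) : RatFunc ℚ :=
  ∏ j ∈ Finset.range k, (1 - a * b ^ j)

/-- The `q`-integer `[N]` with `q = X`. -/
noncomputable def qint (N : ℕ) : RatFunc ℚ := ∑ i ∈ Finset.range N, RatFunc.X ^ i

/-- The sum `S_{m,n}(q)`. -/
noncomputable def S (m n : ℕ) : RatFunc ℚ :=
  ∑ k ∈ Finset.range (m * n), (-1) ^ k * qint (4 * k + 1) * RatFunc.X ^ (k ^ 2) *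
    (qpoch RatFunc.X (RatFunc.X ^ 2) k ^ 3 / qpoch (RatFunc.X ^ 2) (RatFunc.X ^ 2) k ^ 3)

/-- The rational constant `c_m`. -/
def c (m : ℕ) : ℚ :=
  ∑ k ∈ Finset.range m, (-1) ^ k * (4 * k + 1) *
    ((∏ j ∈ Finset.range k, (1 / 2 + (j : ℚ))) ^ 3 / ((Nat.factorial k : ℚ)) ^ 3)

/-- `A ≡ B (mod Φ_n^2)`. -/
def Cong (n : ℕ) (A B : RatFunc ℚ) : Prop :=
  ∃ P Q : ℚ[X], IsCoprime Q (cyclotomic n ℚ) ∧ cyclotomic n ℚ ^ 2 ∣ P ∧
    A - B = algebraMap ℚ[X] (RatFunc ℚ) P / algebraMap ℚ[X] (RatFunc ℚ) Q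

theorem result : ¬ ∀ m n : ℕ, 1 ≤ m → 1 ≤ n → Odd n →
    Cong n (S m n) ((-1) ^ ((n - 1) / 2) * RatFunc.X ^ ((n - 1) ^ 2 / 4) * qint n *
      RatFunc.C (c m)) := by
  intro h
  obtain ⟨P, Q, h1, h2, h3⟩ := h 2 1 (by norm_num) le_rfl odd_one
  rw [cyclotomic_one] at h1 h2
  have inj := IsFractionRing.injective ℚ[X] (RatFunc ℚ)
  have ne : ∀ p : ℚ[X], p.eval 0 ≠ 0 ∨ p.eval 1 ≠ 0 → algebraMap ℚ[X] (RatFunc ℚ) p ≠ 0 := by
    intro p hp h0
    have : p = 0 := inj (by rw [h0, map_zero])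
    subst this
    simp at hp
  have hQ : algebraMap ℚ[X] (RatFunc ℚ) Q ≠ 0 := by
    apply ne
    right
    intro h0
    obtain ⟨a, b, hab⟩ := h1
    have := congrArg (eval (1 : ℚ)) hab
    simp [h0] at this
  have a1 : (1 - RatFunc.X : RatFunc ℚ) ≠ 0 := by
    have := ne (1 - X) (by simp)
    rwa [map_sub, map_one, RatFunc.algebraMap_X] at this
  have a2 : (1 + RatFunc.X : RatFunc ℚ) ≠ 0 := by
    have := ne (1 + X) (by simp)
    rwa [map_add, map_one, RatFunc.algebraMap_X] at this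
  have hc : c 2 = 3 / 8 := by norm_num [c, Finset.sum_range_succ]
  have h8 : (8 : RatFunc ℚ) * RatFunc.C (3 / 8 : ℚ) = 3 := by
    have : (8 : RatFunc ℚ) = RatFunc.C (8 : ℚ) := (map_ofNat RatFunc.C 8).symm
    rw [this, ← map_mul]
    norm_num
  have f : (1 - RatFunc.X ^ 2 : RatFunc ℚ) = (1 - RatFunc.X) * (1 + RatFunc.X) := by ring
  have hS : S 2 1 * (1 + RatFunc.X) ^ 3 = (1 + RatFunc.X) ^ 3 -
      (1 + RatFunc.X + RatFunc.X ^ 2 + RatFunc.X ^ 3 + RatFunc.X ^ 4) * RatFunc.X := by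
    simp only [S, qint, qpoch, Finset.sum_range_succ, Finset.prod_range_succ, Finset.range_zero,
      Finset.sum_empty, Finset.prod_empty, pow_zero, mul_one, one_mul, mul_zero, zero_add, f]
    field_simp
    ring
  have key : algebraMap ℚ[X] (RatFunc ℚ)
      ((5 * (1 + X) ^ 3 - 8 * ((1 + X + X ^ 2 + X ^ 3 + X ^ 4) * X)) * Q) =
      algebraMap ℚ[X] (RatFunc ℚ) (P * (8 * (1 + X) ^ 3)) := by
    rw [hc, eq_div_iff hQ] at h3
    simp only [qint, Finset.sum_range_one, pow_zero, mul_one, one_mul, Nat.sub_self,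
      Nat.zero_div, ne_eq, OfNat.ofNat_ne_zero, not_false_eq_true, zero_pow] at h3
    simp only [map_mul, map_sub, map_add, map_pow, map_one, map_ofNat, RatFunc.algebraMap_X]
    linear_combination (8 * (1 + RatFunc.X) ^ 3) * h3 -
      (8 * algebraMap ℚ[X] (RatFunc ℚ) Q) * hS +
      (algebraMap ℚ[X] (RatFunc ℚ) Q * (1 + RatFunc.X) ^ 3) * h8
  have key2 := inj key
  have hd : (X - 1 : ℚ[X]) ^ 2 ∣
      (5 * (1 + X) ^ 3 - 8 * ((1 + X + X ^ 2 + X ^ 3 + X ^ 4) * X)) * Q := by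
    rw [key2]; exact h2.mul_right _
  obtain ⟨W, hW⟩ := (h1.symm.pow_left (m := 2)).dvd_of_dvd_mul_right hd
  have := congrArg (fun p : ℚ[X] => eval 1 (derivative p)) hW
  simp [derivative_pow] at this
  norm_num at this

end Pool.Agent.Results.MP_dac99f_nt.One
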